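import Pool.Agent.R333.BR.Ord

/-! Relations without the base field. -/

set_option autoImplicit false

namespace Pool.Agent.R386.TC

open NumberField IsDedekindDomain Filter Topology
open Pool.Agent.H341R2.EC
open Pool.Agent.R433.MD
open Pool.Agent.R333.BR (L_rel order_eq)

section
variable {U : Set ℂ} {K L : Type} [Field K] [NumberField K] [Field L] [NumberField L] [Algebra K L]
  [IsGalois K L]

/-- Artin formalism for the orders of vanishing -/
theorem ord_rel0 (hU : IsPreconnected U) (hH : ∀ s : ℂ, 3 / 2 < s.re → s ∈ U) (h1 : (1 : ℂ) ∈ U)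
    {ι : Type} [Fintype ι] (Z : ι → Ext K) (f : ∀ i, (Z i).F →ₐ[K] L) (e : ι → ℤ)
    (h : ∀ g : Gal(L/K), ∑ i, e i * fx (f i).fieldRange.fixingSubgroup g = 0)
    (E : WeierstrassCurve K) (hE : E.IsElliptic)
    (VZ : ∀ i, HeightOneSpectrum (𝓞 (Z i).F) → WeierstrassCurve (𝓞 (Z i).F))
    (hVZ : ∀ i w, IsMinAt (E.map (algebraMap K (Z i).F)) w (VZ i w))
    {Λ : ι → ℂ → ℂ} (hΛ : ∀ i, MeromorphicOn (Λ i) U)
    (hL : ∀ i (s : ℂ), 3 / 2 < s.re → Λ i s = LL (VZ i) s) (r : ι → ℤ)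
    (hr : ∀ i, meromorphicOrderAt (Λ i) 1 = r i) : ∑ i, e i * r i = 0 := by
  obtain ⟨V0, hV0⟩ := exists_minimal E hE
  obtain ⟨R, hR, hR1, hRL⟩ := L_rel Z f e 0 (by exact_mod_cast h) E hE V0 hV0 VZ hVZ
  have hRU : MeromorphicOn R U := fun x _ => hR x trivial
  have h2 : meromorphicOrderAt (fun _ : ℂ => (1 : ℂ)) 1 =
      meromorphicOrderAt (R * ∏ i, (Λ i) ^ (e i)) 1 := by
    refine order_eq hU hH h1 (MeromorphicOn.const 1)
      (hRU.mul (MeromorphicOn.prod fun i _ => (hΛ i).zpow _)) fun s hs => ?_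
    have h3 := (hRL s hs).2
    rw [pow_zero] at h3
    rw [Pi.mul_apply, Finset.prod_apply, h3]
    congr 1
    refine Finset.prod_congr rfl fun i _ => ?_
    rw [Pi.pow_apply, hL i s hs]
  have h3 : meromorphicOrderAt (fun _ : ℂ => (1 : ℂ)) 1 = 0 := by
    rw [meromorphicOrderAt_const]
    simp
  rw [h3, meromorphicOrderAt_mul (hR 1 trivial)
    (MeromorphicAt.prod fun i _ => (hΛ i 1 h1).zpow _), hR1, zero_add,
    meromorphicOrderAt_prod fun i _ => (hΛ i 1 h1).zpow _] at h2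
  have h4 : ∀ i, meromorphicOrderAt (Λ i ^ e i) 1 = ((e i * r i : ℤ) : WithTop ℤ) := fun i => by
    rw [meromorphicOrderAt_zpow (hΛ i 1 h1), hr i]
    rfl
  rw [Finset.sum_congr rfl fun i _ => h4 i] at h2
  have h5 : ((0 : ℤ) : WithTop ℤ) = ((∑ i, e i * r i : ℤ) : WithTop ℤ) := by
    rw [WithTop.coe_sum, ← h2]
    rfl
  exact (WithTop.coe_injective h5).symm

end

end Pool.Agent.R386.TC
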