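import Mathlib

/-!
# Complex conjugations of algebraically closed subfields of `ℂ`
-/

set_option autoImplicit false

namespace Pool.Agent.R386.TC

section

variable {Ω : Type} [Field Ω] [IsAlgClosed Ω] {ι : Ω →+* ℂ} {c g : Ω ≃+* Ω}

/-- monotonicity on the real elements -/
lemma real_mono (hι : ∀ z, ι (c z) = (starRingEnd ℂ) (ι z))
    (hg : ∀ z, g (c z) = c (g z)) {z : Ω} (hz : c z = z) (hpos : 0 ≤ (ι z).re) :
    0 ≤ (ι (g z)).re := by
  obtain ⟨a, ha⟩ := IsAlgClosed.exists_pow_nat_eq z two_pos
  have him : (ι z).im = 0 := by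
    have h1 := hι z
    rw [hz] at h1
    exact Complex.conj_eq_iff_im.1 h1.symm
  have h2 : (ι a) ^ 2 = ι z := by rw [← map_pow, ha]
  -- `ι a` is real
  have h3 : (ι a).im = 0 := by
    have h4 := congrArg Complex.im h2
    have h5 := congrArg Complex.re h2
    rw [him, pow_two, Complex.mul_im] at h4
    rw [pow_two, Complex.mul_re] at h5
    by_contra h6
    have h7 : (ι a).re = 0 := by
      have : (ι a).re * (ι a).im = 0 := by linarith
      exact (mul_eq_zero.1 this).resolve_right h6
    rw [h7] at h5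
    have h8 : 0 < (ι a).im * (ι a).im := mul_self_pos.2 h6
    linarith
  have h4 : c a = a := by
    apply ι.injective
    rw [hι]
    exact Complex.conj_eq_iff_im.2 h3
  have h5 : c (g a) = g a := by
    rw [← hg, h4]
  have h6 : (ι (g a)).im = 0 := by
    have h1 := hι (g a)
    rw [h5] at h1
    exact Complex.conj_eq_iff_im.1 h1.symm
  have h7 : ι (g z) = (ι (g a)) ^ 2 := by rw [← ha, map_pow, map_pow]
  rw [h7, pow_two, Complex.mul_re, h6]
  nlinarith [mul_self_nonneg (ι (g a)).re]

lemma real_fixed (hι : ∀ z, ι (c z) = (starRingEnd ℂ) (ι z))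
    (hg : ∀ z, g (c z) = c (g z)) {z : Ω} (hz : c z = z) : g z = z := by
  have : CharZero Ω := (RingHom.charZero_iff ι.injective).2 inferInstance
  have him : (ι z).im = 0 := by
    have h1 := hι z
    rw [hz] at h1
    exact Complex.conj_eq_iff_im.1 h1.symm
  have hgz : c (g z) = g z := by
    rw [← hg, hz]
  have him' : (ι (g z)).im = 0 := by
    have h1 := hι (g z)
    rw [hgz] at h1
    exact Complex.conj_eq_iff_im.1 h1.symm
  -- comparison with rational numbers
  have hq : ∀ q : ℚ, (q : ℝ) ≤ (ι z).re → (q : ℝ) ≤ (ι (g z)).re := by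
    intro q hq
    have h1 : c (z - (q : Ω)) = z - (q : Ω) := by
      rw [map_sub, hz, map_ratCast]
    have h2 : ι (z - (q : Ω)) = ι z - (q : ℂ) := by
      rw [map_sub, map_ratCast]
    have h3 := real_mono hι hg h1 (by rw [h2]; simpa using hq)
    have h4 : ι (g (z - (q : Ω))) = ι (g z) - (q : ℂ) := by
      rw [map_sub, map_ratCast, map_sub, map_ratCast]
    rw [h4] at h3
    simpa using h3
  have hq' : ∀ q : ℚ, (ι z).re ≤ (q : ℝ) → (ι (g z)).re ≤ (q : ℝ) := by
    intro q hq
    have h1 : c ((q : Ω) - z) = (q : Ω) - z := by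
      rw [map_sub, hz, map_ratCast]
    have h2 : ι ((q : Ω) - z) = (q : ℂ) - ι z := by
      rw [map_sub, map_ratCast]
    have h3 := real_mono hι hg h1 (by rw [h2]; simpa using hq)
    have h4 : ι (g ((q : Ω) - z)) = (q : ℂ) - ι (g z) := by
      rw [map_sub, map_ratCast, map_sub, map_ratCast]
    rw [h4] at h3
    simpa using h3
  have hre : (ι (g z)).re = (ι z).re := by
    refine le_antisymm (le_of_forall_gt fun x hx => ?_) (le_of_forall_lt fun x hx => ?_)
    · obtain ⟨q, h1, h2⟩ := exists_rat_btwn hx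
      exact (hq' q h1.le).trans_lt h2
    · obtain ⟨q, h1, h2⟩ := exists_rat_btwn hx
      exact h1.trans_le (hq q h2.le)
  apply ι.injective
  exact Complex.ext hre (by rw [him, him'])

/-- the centralizer of a complex conjugation -/
theorem cent (hι : ∀ z, ι (c z) = (starRingEnd ℂ) (ι z)) (hg : ∀ z, g (c z) = c (g z)) :
    (∀ z, g z = z) ∨ ∀ z, g z = c z := by
  have : CharZero Ω := (RingHom.charZero_iff ι.injective).2 inferInstance
  obtain ⟨j, hj⟩ := IsAlgClosed.exists_pow_nat_eq (-1 : Ω) two_pos
  have hj0 : j ≠ 0 := by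
    rintro rfl
    norm_num at hj
  have hcj : c j = - j := by
    have h1 : (ι j) ^ 2 = -1 := by rw [← map_pow, hj, map_neg, map_one]
    have h2 : ι j = Complex.I ∨ ι j = - Complex.I := by
      have h3 : (ι j - Complex.I) * (ι j + Complex.I) = 0 := by
        have : (ι j - Complex.I) * (ι j + Complex.I) = (ι j) ^ 2 - Complex.I ^ 2 := by ring
        rw [this, h1, Complex.I_sq, sub_self]
      rcases mul_eq_zero.1 h3 with h4 | h4
      · exact Or.inl (sub_eq_zero.1 h4)
      · exact Or.inr (eq_neg_of_add_eq_zero_left h4)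
    apply ι.injective
    rw [hι, map_neg]
    rcases h2 with h3 | h3 <;> rw [h3] <;> simp
  have hcc : ∀ z, c (c z) = z := fun z => by
    apply ι.injective
    rw [hι, hι, Complex.conj_conj]
  have hgj : g j = j ∨ g j = - j := by
    have h1 : (g j) ^ 2 = j ^ 2 := by rw [← map_pow, hj, map_neg, map_one]
    exact sq_eq_sq_iff_eq_or_eq_neg.1 h1
  have hdec : ∀ z : Ω, g z = (z + c z) / 2 + (z - c z) / (2 * j) * g j := by
    intro z
    have h1 : c ((z + c z) / 2) = (z + c z) / 2 := by
      rw [map_div₀, map_add, hcc, map_ofNat, add_comm]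
    have h2 : c ((z - c z) / (2 * j)) = (z - c z) / (2 * j) := by
      rw [map_div₀, map_sub, hcc, map_mul, map_ofNat, hcj, mul_neg, div_neg, ← neg_div, neg_sub]
    have h3 : z = (z + c z) / 2 + (z - c z) / (2 * j) * j := by
      field_simp
      ring
    conv_lhs => rw [h3]
    rw [map_add, map_mul, real_fixed hι hg h1, real_fixed hι hg h2]
  rcases hgj with h | h
  · left
    intro z
    rw [hdec z, h]
    field_simp
    ring
  · right
    intro z
    rw [hdec z, h]
    field_simp
    ring

end

end Pool.Agent.R386.TC
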