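import Pool.Agent.R433.MD.Burnside

/-!
# Permutation characters which vanish on the bad elements
-/

set_option autoImplicit false

namespace Pool.Agent.R386.TC

open Pool.Agent.R433.MD

section
variable {G : Type} [Group G] [Finite G]

/-- the span of the permutation characters of the subgroups in `𝓕` -/
def SP (𝓕 : Set (Subgroup G)) : Submodule ℤ (G → ℤ) :=
  Submodule.span ℤ (Set.range fun H : 𝓕 => fx H.1)

theorem fx_mem {𝓕 : Set (Subgroup G)} {H : Subgroup G} (hH : H ∈ 𝓕) : fx H ∈ SP 𝓕 :=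
  Submodule.subset_span ⟨⟨H, hH⟩, rfl⟩

theorem fx_mul (𝓕 : Set (Subgroup G)) (hle : ∀ H ∈ 𝓕, ∀ H' ≤ H, H' ∈ 𝓕)
    (hconj : ∀ H ∈ 𝓕, ∀ x : G, H.map (MulAut.conj x).toMonoidHom ∈ 𝓕) {H : Subgroup G}
    (H' : Subgroup G) (hH : H ∈ 𝓕) : fx H * fx H' ∈ SP 𝓕 := by
  have h1 := fixed_mem (G := G) ((G ⧸ H) × (G ⧸ H')) (SP 𝓕) (by
    rintro ⟨c, c'⟩
    obtain ⟨x, rfl⟩ := QuotientGroup.mk_surjective c
    obtain ⟨x', rfl⟩ := QuotientGroup.mk_surjective c'
    have e : MulAction.stabilizer G ((x : G ⧸ H), (x' : G ⧸ H')) =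
        H.map (MulAut.conj x).toMonoidHom ⊓ H'.map (MulAut.conj x').toMonoidHom := by
      rw [← stab_coset, ← stab_coset]
      ext y
      rw [Subgroup.mem_inf, MulAction.mem_stabilizer_iff, MulAction.mem_stabilizer_iff,
        MulAction.mem_stabilizer_iff, Prod.smul_mk, Prod.mk.injEq]
    rw [e]
    exact fx_mem (hle _ (hconj _ hH x) _ inf_le_left))
  have h2 : fx H * fx H' =
      fun g : G => (Nat.card {y : (G ⧸ H) × (G ⧸ H') // g • y = y} : ℤ) := by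
    funext g
    rw [Pi.mul_apply, fx, fx, ← Nat.cast_mul, ← Nat.card_prod]
    congr 1
    refine Nat.card_congr
      { toFun := fun p => ⟨(p.1.1, p.2.1), Prod.ext p.1.2 p.2.2⟩
        invFun := fun p => (⟨p.1.1, congrArg Prod.fst p.2⟩, ⟨p.1.2, congrArg Prod.snd p.2⟩)
        left_inv := fun _ => rfl
        right_inv := fun _ => rfl }
  rw [h2]
  exact h1

theorem mul_ideal (𝓕 : Set (Subgroup G)) (hle : ∀ H ∈ 𝓕, ∀ H' ≤ H, H' ∈ 𝓕)
    (hconj : ∀ H ∈ 𝓕, ∀ x : G, H.map (MulAut.conj x).toMonoidHom ∈ 𝓕) {a b : G → ℤ}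
    (ha : a ∈ SP 𝓕) (hb : b ∈ SP (Set.univ : Set (Subgroup G))) : a * b ∈ SP 𝓕 := by
  unfold SP at ha hb
  induction ha using Submodule.span_induction with
  | mem x hx =>
    obtain ⟨H, rfl⟩ := hx
    induction hb using Submodule.span_induction with
    | mem y hy =>
      obtain ⟨H', rfl⟩ := hy
      exact fx_mul 𝓕 hle hconj H'.1 H.2
    | zero => rw [mul_zero]; exact Submodule.zero_mem _
    | add y z _ _ hy hz => rw [mul_add]; exact Submodule.add_mem _ hy hz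
    | smul c y _ hy => rw [mul_smul_comm]; exact Submodule.smul_mem _ _ hy
  | zero => rw [zero_mul]; exact Submodule.zero_mem _
  | add y z _ _ hy hz => rw [add_mul]; exact Submodule.add_mem _ hy hz
  | smul c y _ hy => rw [smul_mul_assoc]; exact Submodule.smul_mem _ _ hy

theorem SP_mono {𝓕 𝓖 : Set (Subgroup G)} (h : 𝓕 ⊆ 𝓖) : SP 𝓕 ≤ SP 𝓖 := by
  unfold SP
  rw [Submodule.span_le]
  rintro _ ⟨H, rfl⟩
  exact fx_mem (h H.2)

/-- a combination of permutation characters which vanishes at all `g` such that `⟨g⟩` is not in the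
family is, up to a multiple, a combination of permutation characters of the family -/
theorem rel_bad (𝓕 : Set (Subgroup G)) (hle : ∀ H ∈ 𝓕, ∀ H' ≤ H, H' ∈ 𝓕)
    (hconj : ∀ H ∈ 𝓕, ∀ x : G, H.map (MulAut.conj x).toMonoidHom ∈ 𝓕) (f : G → ℤ)
    (hf : f ∈ SP (Set.univ : Set (Subgroup G))) (hz : ∀ g, f g ≠ 0 → Subgroup.zpowers g ∈ 𝓕) :
    ∃ m : ℕ, m ≠ 0 ∧ (fun g => (m : ℤ) * f g) ∈ SP 𝓕 := by
  classical
  let X : Type := {g : G // Subgroup.zpowers g ∈ 𝓕}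
  let res : (G → ℤ) →ₗ[ℤ] (X → ℤ) := LinearMap.funLeft ℤ ℤ Subtype.val
  obtain ⟨m, hm, -, a, ha, ham⟩ := unit_mem (X := X) ((SP 𝓕).map res)
    (by
      rintro _ ⟨a, ha, rfl⟩ _ ⟨b, hb, rfl⟩
      refine ⟨a * b, mul_ideal 𝓕 hle hconj ha (SP_mono (Set.subset_univ _) hb), ?_⟩
      funext x
      rfl) ∅
    (by
      intro x
      refine ⟨res (fx (Subgroup.zpowers x.1)), ⟨_, fx_mem x.2, rfl⟩, ?_⟩
      change fx (Subgroup.zpowers x.1) x.1 ≠ 0
      unfold fx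
      rw [Nat.cast_ne_zero]
      refine (Nat.card_pos_iff.2 ⟨⟨⟨((1 : G) : G ⧸ Subgroup.zpowers x.1), ?_⟩⟩, inferInstance⟩).ne'
      change ((x.1 * 1 : G) : G ⧸ Subgroup.zpowers x.1) = _
      rw [QuotientGroup.eq, mul_one, mul_one]
      exact Subgroup.inv_mem _ (Subgroup.mem_zpowers x.1))
    (by
      intro x p hp
      exact absurd hp (Set.notMem_empty p))
  refine ⟨m, hm, ?_⟩
  have h1 : (fun g => (m : ℤ) * f g) = a * f := by
    funext g
    rw [Pi.mul_apply]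
    by_cases h : f g = 0
    · rw [h, mul_zero, mul_zero]
    · have h2 := congrFun ham ⟨g, hz g h⟩
      have h3 : a g = (m : ℤ) := h2
      rw [h3]
  rw [h1]
  exact mul_ideal 𝓕 hle hconj ha hf

/-- explicit form -/
theorem SP_explicit {𝓕 : Set (Subgroup G)} {f : G → ℤ} (hf : f ∈ SP 𝓕) :
    ∃ n : 𝓕 → ℤ, ∀ g, f g = ∑ᶠ H : 𝓕, n H * fx H.1 g := by
  classical
  let _ : Fintype 𝓕 := Fintype.ofFinite _
  unfold SP at hf
  rw [Submodule.mem_span_range_iff_exists_fun] at hf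
  obtain ⟨c, hc⟩ := hf
  refine ⟨c, fun g => ?_⟩
  rw [finsum_eq_sum_of_fintype, ← hc, Finset.sum_apply]
  rfl

end

end Pool.Agent.R386.TC
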