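import Mathlib

/-!
# Separation of cyclic subgroups from a closed set in a Galois group
-/

set_option autoImplicit false

namespace Pool.Agent.R386.TC

open Topology Filter

/-- the closure of the group generated by `g` is contained in the centralizer of `g` -/
theorem closure_comm {G : Type} [Group G] [TopologicalSpace G] [IsTopologicalGroup G] [T2Space G]
    (g : G) {c : G} (hc : c ∈ closure ((Subgroup.zpowers g : Subgroup G) : Set G)) :
    g * c = c * g := by
  have h1 : IsClosed {c : G | g * c = c * g} :=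
    isClosed_eq (continuous_const.mul continuous_id) (continuous_id.mul continuous_const)
  refine closure_minimal ?_ h1 hc
  rintro _ ⟨n, rfl⟩
  change g * g ^ n = g ^ n * g
  rw [← zpow_one_add, ← zpow_add_one, add_comm]

section
variable {K Ω : Type} [Field K] [Field Ω] [Algebra K Ω] [IsGalois K Ω]

theorem sep (C : Set Gal(Ω/K)) (hC : IsClosed C) (h1 : (1 : Gal(Ω/K)) ∉ C)
    (hcent : ∀ c ∈ C, ∀ g : Gal(Ω/K), g * c = c * g → g = 1 ∨ g = c)
    (Z : Set Gal(Ω/K)) (hZ : IsClosed Z) (hZC : ∀ g ∈ Z, g ∉ C)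
    (E₀ : IntermediateField K Ω) [FiniteDimensional K E₀] [Normal K E₀] :
    ∃ E : IntermediateField K Ω, FiniteDimensional K E ∧ Normal K E ∧ E₀ ≤ E ∧
      ∀ g ∈ Z, ∀ n : ℤ, ∀ v ∈ E.fixingSubgroup, g ^ n * v ∉ C := by
  classical
  have hloc : ∀ g : Gal(Ω/K), g ∉ C → ∃ E : IntermediateField K Ω, FiniteDimensional K E ∧
      Normal K E ∧ ∀ n : ℤ, ∀ v ∈ E.fixingSubgroup, g ^ n * v ∉ C := by
    intro g hg
    have hk : IsCompact (closure ((Subgroup.zpowers g : Subgroup Gal(Ω/K)) : Set Gal(Ω/K))) :=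
      isClosed_closure.isCompact
    have hsub : closure ((Subgroup.zpowers g : Subgroup Gal(Ω/K)) : Set Gal(Ω/K)) ⊆ Cᶜ := by
      intro c hc hcC
      rcases hcent c hcC g (closure_comm g hc) with h | h
      · rw [h] at hc
        have h2 : ((Subgroup.zpowers (1 : Gal(Ω/K)) : Subgroup Gal(Ω/K)) : Set Gal(Ω/K)) = {1} := by
          rw [Subgroup.zpowers_one_eq_bot]
          rfl
        rw [h2, closure_singleton] at hc
        rw [hc] at hcC
        exact h1 hcC
      · exact hg (h ▸ hcC)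
    obtain ⟨V, hV, hKV⟩ := compact_open_separated_mul_right hk hC.isOpen_compl hsub
    obtain ⟨E, hE1, hE2, hE3⟩ := (krullTopology_mem_nhds_one_iff_of_normal K Ω V).1 hV
    refine ⟨E, hE1, hE2, fun n v hv => ?_⟩
    exact hKV (Set.mul_mem_mul (subset_closure ⟨n, rfl⟩) (hE3 hv))
  have hloc' : ∀ g : Z, ∃ E : IntermediateField K Ω, FiniteDimensional K E ∧
      Normal K E ∧ ∀ n : ℤ, ∀ v ∈ E.fixingSubgroup, g.1 ^ n * v ∉ C :=
    fun g => hloc g.1 (hZC g.1 g.2)
  choose E hE1 hE2 hE3 using hloc'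
  obtain ⟨t, ht⟩ := hZ.isCompact.elim_finite_subcover
    (fun g : Z => {x | g.1⁻¹ * x ∈ (E g).fixingSubgroup}) (fun g => by
      have := hE1 g
      exact ((E g).fixingSubgroup_isOpen).preimage (continuous_const.mul continuous_id))
    (by
      intro x hx
      rw [Set.mem_iUnion]
      refine ⟨⟨x, hx⟩, ?_⟩
      change x⁻¹ * x ∈ (E ⟨x, hx⟩).fixingSubgroup
      rw [inv_mul_cancel]
      exact Subgroup.one_mem (E ⟨x, hx⟩).fixingSubgroup)
  let M : IntermediateField K Ω := E₀ ⊔ ⨆ g : t, E g.1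
  have i1 : ∀ g : t, FiniteDimensional K (E g.1) := fun g => hE1 g.1
  have i2 : ∀ g : t, Normal K (E g.1) := fun g => hE2 g.1
  have i3 : FiniteDimensional K (⨆ g : t, E g.1 : IntermediateField K Ω) := inferInstance
  have i4 : Normal K (⨆ g : t, E g.1 : IntermediateField K Ω) := inferInstance
  refine ⟨M, inferInstance, inferInstance, le_sup_left, fun x hx n v hv => ?_⟩
  have h2 := ht hx
  rw [Set.mem_iUnion₂] at h2
  obtain ⟨g, hg, hxg⟩ := h2
  have hU : (E g).fixingSubgroup.Normal := by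
    have := hE2 g
    have : Algebra.IsSeparable K (E g) := inferInstance
    have : IsGalois K (E g) := ⟨⟩
    exact IsGalois.fixingSubgroup_normal_of_isGalois (E g)
  have hle : E g ≤ M := (le_iSup (fun g : t => E g.1) ⟨g, hg⟩).trans le_sup_right
  have hv' : v ∈ (E g).fixingSubgroup := IntermediateField.fixingSubgroup_le hle hv
  have h3 : (g.1 ^ n)⁻¹ * x ^ n ∈ (E g).fixingSubgroup := by
    rw [← QuotientGroup.eq]
    have h4 : (g.1 : Gal(Ω/K) ⧸ (E g).fixingSubgroup) = x := QuotientGroup.eq.2 hxg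
    rw [QuotientGroup.mk_zpow, QuotientGroup.mk_zpow, h4]
  have h5 := hE3 g n _ ((E g).fixingSubgroup.mul_mem h3 hv')
  rw [← mul_assoc, mul_inv_cancel_left] at h5
  exact h5

end

end Pool.Agent.R386.TC
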