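import Pool.Agent.R386.TC.Cent
import Pool.Agent.R386.TC.Top
import Pool.Agent.R386.TC.Grp
import Pool.Agent.R333.BR.Fam

/-!
# Permutation characters which vanish at the complex conjugations
-/

set_option autoImplicit false

namespace Pool.Agent.R386.TC

open NumberField
open Pool.Agent.R433.MD (fx)

/-- two embeddings of a normal extension which agree on the base field -/
theorem exists_aut {k N A : Type} [Field k] [Field N] [Algebra k N] [Normal k N] [Field A]
    (φ φ' : N →+* A) (h : ∀ x : k, φ (algebraMap k N x) = φ' (algebraMap k N x)) :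
    ∃ g : Gal(N/k), ∀ z, φ' z = φ (g z) := by
  letI : Algebra N A := φ.toAlgebra
  letI : Algebra k A := (φ.comp (algebraMap k N)).toAlgebra
  haveI : IsScalarTower k N A := IsScalarTower.of_algebraMap_eq fun _ => rfl
  let φa : N →ₐ[k] A := { φ' with commutes' := fun x => (h x).symm }
  let ψ := φa.restrictNormal N
  have h1 : ∀ z, φ (ψ z) = φ' z := fun z => φa.restrictNormal_commutes N z
  have hbij : Function.Bijective ψ := Algebra.IsAlgebraic.algHom_bijective ψ
  exact ⟨AlgEquiv.ofBijective ψ hbij, fun z => (h1 z).symm⟩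

/-- embeddings extend -/
theorem exists_ext' {k N A : Type} [Field k] [Field N] [Algebra k N] [Algebra.IsAlgebraic k N]
    [Field A] [IsAlgClosed A] (φ : k →+* A) : ∃ ι : N →+* A, ∀ x, ι (algebraMap k N x) = φ x := by
  letI : Algebra k A := φ.toAlgebra
  let ι : N →ₐ[k] A := IsAlgClosed.lift
  exact ⟨ι.toRingHom, fun x => ι.commutes x⟩

/-- `g` is a complex conjugation of `N` -/
def IsCC {K N : Type} [Field K] [Field N] [Algebra K N] (g : Gal(N/K)) : Prop :=
  ∃ ι : N →+* ℂ, ∀ z, ι (g z) = (starRingEnd ℂ) (ι z)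

section
variable {K : Type} [Field K] [NumberField K]

theorem isCC_real {N : Type} [Field N] [Algebra K N] {g : Gal(N/K)} {ι : N →+* ℂ}
    (h : ∀ z, ι (g z) = (starRingEnd ℂ) (ι z)) (x : K) :
    (starRingEnd ℂ) (ι (algebraMap K N x)) = ι (algebraMap K N x) := by
  rw [← h, AlgEquiv.commutes]

theorem isClosed_CC : IsClosed {c : Gal(AlgebraicClosure K/K) | IsCC c} := by
  have e : {c : Gal(AlgebraicClosure K/K) | IsCC c} =
      ⋃ φ : K →+* ℂ, {c | ∃ ι : AlgebraicClosure K →+* ℂ,
        (∀ x : K, ι (algebraMap K _ x) = φ x) ∧ ∀ z, ι (c z) = (starRingEnd ℂ) (ι z)} := by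
    ext c
    rw [Set.mem_iUnion]
    constructor
    · rintro ⟨ι, hι⟩
      exact ⟨ι.comp (algebraMap K _), ι, fun _ => rfl, hι⟩
    · rintro ⟨φ, ι, -, hι⟩
      exact ⟨ι, hι⟩
  rw [e]
  refine isClosed_iUnion_of_finite fun φ => ?_
  rcases Set.eq_empty_or_nonempty {c : Gal(AlgebraicClosure K/K) |
      ∃ ι : AlgebraicClosure K →+* ℂ, (∀ x : K, ι (algebraMap K _ x) = φ x) ∧
        ∀ z, ι (c z) = (starRingEnd ℂ) (ι z)} with h | ⟨c0, ι0, h1, h2⟩
  · rw [h]
    exact isClosed_empty
  · have e2 : {c : Gal(AlgebraicClosure K/K) |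
        ∃ ι : AlgebraicClosure K →+* ℂ, (∀ x : K, ι (algebraMap K _ x) = φ x) ∧
          ∀ z, ι (c z) = (starRingEnd ℂ) (ι z)} =
        Set.range fun g : Gal(AlgebraicClosure K/K) => g⁻¹ * c0 * g := by
      ext c
      constructor
      · rintro ⟨ι, h3, h4⟩
        obtain ⟨g, hg⟩ := exists_aut (k := K) ι0 ι (fun x => by rw [h1, h3])
        refine ⟨g, ?_⟩
        ext z
        apply ι0.injective
        change ι0 (g⁻¹ (c0 (g z))) = ι0 (c z)
        have h5 : ι0 (g (c z)) = ι0 (c0 (g z)) := by
          rw [← hg, h4, hg, h2]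
        have h6 : g (c z) = c0 (g z) := ι0.injective h5
        rw [← h6]
        congr 1
        change (g⁻¹ * g) (c z) = c z
        rw [inv_mul_cancel]
        rfl
      · rintro ⟨g, rfl⟩
        refine ⟨ι0.comp (g : AlgebraicClosure K →+* AlgebraicClosure K), fun x => ?_, fun z => ?_⟩
        · change ι0 (g (algebraMap K _ x)) = _
          rw [AlgEquiv.commutes, h1]
        · change ι0 (g (g⁻¹ (c0 (g z)))) = (starRingEnd ℂ) (ι0 (g z))
          rw [← h2]
          congr 1
          change (g * g⁻¹) (c0 (g z)) = c0 (g z)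
          rw [mul_inv_cancel]
          rfl
    rw [e2]
    exact (isCompact_range ((continuous_id.inv.mul continuous_const).mul continuous_id)).isClosed

theorem one_notMem_CC : ¬ IsCC (1 : Gal(AlgebraicClosure K/K)) := by
  rintro ⟨ι, hι⟩
  obtain ⟨j, hj⟩ := IsAlgClosed.exists_pow_nat_eq (-1 : AlgebraicClosure K) two_pos
  have h1 : (ι j) ^ 2 = -1 := by rw [← map_pow, hj, map_neg, map_one]
  have h2 : (starRingEnd ℂ) (ι j) = ι j := (hι j).symm
  have h3 : (ι j).im = 0 := Complex.conj_eq_iff_im.1 h2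
  have h4 := congrArg Complex.re h1
  rw [pow_two, Complex.mul_re, h3] at h4
  simp at h4
  nlinarith [mul_self_nonneg (ι j).re]

theorem cent_CC (c : Gal(AlgebraicClosure K/K)) (hc : IsCC c) (g : Gal(AlgebraicClosure K/K))
    (hg : g * c = c * g) : g = 1 ∨ g = c := by
  obtain ⟨ι, hι⟩ := hc
  rcases cent (ι := ι) (c := (c : AlgebraicClosure K ≃+* AlgebraicClosure K))
    (g := (g : AlgebraicClosure K ≃+* AlgebraicClosure K)) hι (fun z => by
      change (g * c) z = (c * g) z
      rw [hg]) with h | h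
  · left
    ext z
    exact h z
  · right
    ext z
    exact h z

/-- the number of embeddings fixed by a complex conjugation -/
theorem card_CC {F : Type} [Field F] [NumberField F] [Algebra K F]
    {c : Gal(AlgebraicClosure K/K)} {ι : AlgebraicClosure K →+* ℂ}
    (hι : ∀ z, ι (c z) = (starRingEnd ℂ) (ι z)) (φ : K →+* ℝ)
    (hφ : ∀ x : K, ι (algebraMap K _ x) = (φ x : ℂ)) :
    Nat.card {τ : F →ₐ[K] AlgebraicClosure K // ∀ x, c (τ x) = τ x} =
      Nat.card {τ : F →+* ℝ // τ.comp (algebraMap K F) = φ} := by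
  classical
  have hreal : ∀ (τ : {τ : F →ₐ[K] AlgebraicClosure K // ∀ x, c (τ x) = τ x}) (x : F),
      ((ι (τ.1 x)).re : ℂ) = ι (τ.1 x) := by
    intro τ x
    have h1 := hι (τ.1 x)
    rw [τ.2] at h1
    exact Complex.conj_eq_iff_re.1 h1.symm
  let T : {τ : F →ₐ[K] AlgebraicClosure K // ∀ x, c (τ x) = τ x} →
      {τ : F →+* ℝ // τ.comp (algebraMap K F) = φ} := fun τ =>
    ⟨{ toFun := fun x => (ι (τ.1 x)).re
       map_one' := by rw [map_one, map_one]; rfl
       map_zero' := by rw [map_zero, map_zero]; rfl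
       map_mul' := fun x y => by
        apply Complex.ofReal_injective
        push_cast
        rw [hreal, hreal, hreal, map_mul, map_mul]
       map_add' := fun x y => by rw [map_add, map_add, Complex.add_re] }, by
      ext x
      change (ι (τ.1 (algebraMap K F x))).re = φ x
      rw [AlgHom.commutes, hφ, Complex.ofReal_re]⟩
  refine Nat.card_congr (Equiv.ofBijective T ⟨fun τ τ' h => ?_, fun ρ => ?_⟩)
  · apply Subtype.ext
    ext x
    apply ι.injective
    rw [← hreal τ, ← hreal τ']
    congr 1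
    have h1 := congrArg (fun t : {τ : F →+* ℝ // τ.comp (algebraMap K F) = φ} => t.1 x) h
    exact h1
  · -- extension of `ρ`
    letI iA : Algebra (AlgebraicClosure K) ℂ := ι.toAlgebra
    letI iK : Algebra K ℂ := (ι.comp (algebraMap K _)).toAlgebra
    haveI : IsScalarTower K (AlgebraicClosure K) ℂ := IsScalarTower.of_algebraMap_eq fun _ => rfl
    let ρ' : F →ₐ[K] ℂ := { (Complex.ofRealHom.comp ρ.1) with
      commutes' := fun x => by
        change ((ρ.1 (algebraMap K F x) : ℝ) : ℂ) = ι (algebraMap K _ x)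
        rw [hφ]
        have h1 := congrArg (fun t : K →+* ℝ => t x) ρ.2
        change (((ρ.1.comp (algebraMap K F)) x : ℝ) : ℂ) = _
        rw [show (ρ.1.comp (algebraMap K F)) x = φ x from h1] }
    let κ : AlgebraicClosure K →ₐ[K] ℂ := { ι with commutes' := fun _ => rfl }
    let T' : (F →ₐ[K] AlgebraicClosure K) → (F →ₐ[K] ℂ) := fun τ => κ.comp τ
    have hinj : Function.Injective T' := by
      intro τ τ' h
      ext x
      apply ι.injective
      exact congrArg (fun t : F →ₐ[K] ℂ => t x) h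
    haveI : FiniteDimensional K F := Module.Finite.of_restrictScalars_finite ℚ K F
    have hbij : Function.Bijective T' := by
      rw [Fintype.bijective_iff_injective_and_card]
      refine ⟨hinj, ?_⟩
      rw [AlgHom.card, AlgHom.card]
    obtain ⟨σ, hσ⟩ := hbij.2 ρ'
    have hs : ∀ x, ι (σ x) = ρ' x := fun x => congrArg (fun t : F →ₐ[K] ℂ => t x) hσ
    refine ⟨⟨σ, fun x => ?_⟩, ?_⟩
    · apply ι.injective
      rw [hι]
      rw [hs]
      exact Complex.conj_ofReal _
    · apply Subtype.ext
      ext x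
      change (ι (σ x)).re = ρ.1 x
      rw [hs]
      exact Complex.ofReal_re _

end

end Pool.Agent.R386.TC
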