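import Pool.Agent.R386.TC.Real

/-!
# Relations with totally complex fields
-/

set_option autoImplicit false

namespace Pool.Agent.R386.TC

open NumberField
open Pool.Agent.R433.MD (fx)
open Pool.Agent.R333.BR (fx_card)

/-- the subgroups without complex conjugations -/
def NoCC (K L : Type) [Field K] [Field L] [Algebra K L] : Set (Subgroup Gal(L/K)) :=
  {H | ∀ h ∈ H, ¬ IsCC h}

section
variable {K L : Type} [Field K] [Field L] [Algebra K L]

theorem noCC_le : ∀ H ∈ NoCC K L, ∀ H' ≤ H, H' ∈ NoCC K L := fun _ hH _ h x hx => hH x (h hx)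

theorem noCC_conj : ∀ H ∈ NoCC K L, ∀ x : Gal(L/K),
    H.map (MulAut.conj x).toMonoidHom ∈ NoCC K L := by
  rintro H hH x _ ⟨h, hh, rfl⟩ ⟨φ, hφ⟩
  refine hH h hh ⟨φ.comp (x : L →+* L), fun z => ?_⟩
  have h1 := hφ (x z)
  change φ (x (h z)) = (starRingEnd ℂ) (φ (x z))
  rw [← h1]
  congr 1
  change x (h z) = (x * h * x⁻¹) (x z)
  have h2 : (x * h * x⁻¹) (x z) = (x * h * x⁻¹ * x) z := rfl
  rw [h2, inv_mul_cancel_right]
  rfl

/-- the fixed field of a subgroup without complex conjugations is totally complex -/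
theorem noReal_of_noCC [FiniteDimensional K L] [IsGalois K L] {H : Subgroup Gal(L/K)}
    (hH : H ∈ NoCC K L) : IsEmpty (IntermediateField.fixedField H →+* ℝ) := by
  refine ⟨fun ρ => ?_⟩
  set M := IntermediateField.fixedField H with hM
  obtain ⟨φ, hφ⟩ := exists_ext' (N := L) (Complex.ofRealHom.comp ρ)
  have hn : IsGalois M L := inferInstance
  obtain ⟨g, hg⟩ := exists_aut (k := M) φ ((starRingEnd ℂ).comp φ) (fun x => by
    change φ (algebraMap M L x) = (starRingEnd ℂ) (φ (algebraMap M L x))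
    rw [hφ]
    exact (Complex.conj_ofReal _).symm)
  let g' : Gal(L/K) := g.restrictScalars K
  have hg' : g' ∈ M.fixingSubgroup := fun x => g.commutes x
  rw [hM, IntermediateField.fixingSubgroup_fixedField] at hg'
  exact hH g' hg' ⟨φ, fun z => (hg z).symm⟩

end

section
variable {K : Type} [Field K] [NumberField K]

/-- complex conjugations of normal extensions lift -/
theorem isCC_lift (E : IntermediateField K (AlgebraicClosure K)) {g : Gal(E/K)} (hg : IsCC g) :
    ∃ c : Gal(AlgebraicClosure K/K), IsCC c ∧ ∀ z : E, c (z : AlgebraicClosure K) = (g z : E) := by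
  obtain ⟨φ, hφ⟩ := hg
  haveI : Algebra.IsAlgebraic E (AlgebraicClosure K) := Algebra.IsAlgebraic.tower_top (K := K) E
  obtain ⟨ι, hι⟩ := exists_ext' (N := AlgebraicClosure K) φ
  have hιE : ∀ z : E, ι (z : AlgebraicClosure K) = φ z := hι
  obtain ⟨c, hc⟩ := exists_aut (k := K) ι ((starRingEnd ℂ).comp ι) (fun x => by
    change ι (algebraMap K _ x) = (starRingEnd ℂ) (ι (algebraMap K _ x))
    have h1 : ι (algebraMap K _ x) = φ (algebraMap K E x) := hιE (algebraMap K E x)
    rw [h1]
    exact (isCC_real hφ x).symm)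
  refine ⟨c, ⟨ι, fun z => (hc z).symm⟩, fun z => ?_⟩
  apply ι.injective
  rw [← hc, hιE, hφ]
  change (starRingEnd ℂ) (ι (z : AlgebraicClosure K)) = _
  rw [hιE]

variable {ι : Type} [Fintype ι] (F : ι → Type) [∀ i, Field (F i)] [∀ i, NumberField (F i)]
  [∀ i, Algebra K (F i)] (n : ι → ℤ)

/-- the combination of the permutation characters -/
noncomputable def pc (g : Gal(AlgebraicClosure K/K)) : ℤ :=
  ∑ i, n i * (Nat.card {τ : F i →ₐ[K] AlgebraicClosure K // ∀ x, g (τ x) = τ x} : ℤ)

theorem pc_CC (hn : ∀ φ : K →+* ℝ,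
      ∑ i, n i * (Nat.card {τ : F i →+* ℝ // τ.comp (algebraMap K (F i)) = φ} : ℤ) = 0)
    {c : Gal(AlgebraicClosure K/K)} (hc : IsCC c) : pc F n c = 0 := by
  obtain ⟨κ, hκ⟩ := hc
  have hre : ∀ x : K, (((κ (algebraMap K _ x)).re : ℝ) : ℂ) = κ (algebraMap K _ x) := fun x =>
    Complex.conj_eq_iff_re.1 (isCC_real hκ x)
  let φ : K →+* ℝ :=
    { toFun := fun x => (κ (algebraMap K _ x)).re
      map_one' := by rw [map_one, map_one]; rfl
      map_zero' := by rw [map_zero, map_zero]; rfl
      map_mul' := fun x y => by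
        apply Complex.ofReal_injective
        rw [Complex.ofReal_mul, hre, hre, hre, map_mul, map_mul]
      map_add' := fun x y => by rw [map_add, map_add, Complex.add_re] }
  rw [← hn φ, pc]
  refine Finset.sum_congr rfl fun i _ => ?_
  rw [card_CC (F := F i) hκ φ fun x => (hre x).symm]

theorem exists_rel (hn : ∀ φ : K →+* ℝ,
      ∑ i, n i * (Nat.card {τ : F i →+* ℝ // τ.comp (algebraMap K (F i)) = φ} : ℤ) = 0) :
    ∃ (L : Type) (_ : Field L) (_ : NumberField L) (_ : Algebra K L) (_ : IsGalois K L)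
      (f : ∀ i, F i →ₐ[K] L) (m : ℕ) (J : Type) (_ : Fintype J) (M : J → IntermediateField K L)
      (e : J → ℤ), m ≠ 0 ∧ IsEmpty (L →+* ℝ) ∧ (∀ j, IsEmpty (M j →+* ℝ)) ∧
        ∀ g : Gal(L/K), (m : ℤ) * ∑ i, n i * fx (f i).fieldRange.fixingSubgroup g =
          ∑ j, e j * fx (M j).fixingSubgroup g := by
  classical
  let Ω := AlgebraicClosure K
  have hfdF : ∀ i, FiniteDimensional K (F i) := fun i =>
    Module.Finite.of_restrictScalars_finite ℚ K (F i)
  let E₀ : IntermediateField K Ω := ⨆ i, IntermediateField.normalClosure K (F i) Ω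
  have hfd : ∀ i, FiniteDimensional K (IntermediateField.normalClosure K (F i) Ω) := fun i =>
    inferInstance
  have hnn : ∀ i, Normal K (IntermediateField.normalClosure K (F i) Ω) := fun i => inferInstance
  have hfin0 : FiniteDimensional K E₀ := inferInstance
  have hN0 : Normal K E₀ := inferInstance
  have hle0 : ∀ i (τ : F i →ₐ[K] Ω) (x : F i), τ x ∈ E₀ := by
    intro i τ x
    have h1 : IntermediateField.normalClosure K (F i) Ω ≤ E₀ :=
      le_iSup (fun i => IntermediateField.normalClosure K (F i) Ω) i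
    exact h1 (τ.fieldRange_le_normalClosure ⟨x, rfl⟩)
  -- the function `pc` is locally constant
  have hlc : ∀ g v : Gal(Ω/K), v ∈ E₀.fixingSubgroup → pc F n (g * v) = pc F n g := by
    intro g v hv
    unfold pc
    refine Finset.sum_congr rfl fun i _ => ?_
    congr 2
    refine Nat.card_congr (Equiv.subtypeEquivRight fun τ => forall_congr' fun x => ?_)
    have h1 : v (τ x) = τ x := hv ⟨τ x, hle0 i τ x⟩
    change g (v (τ x)) = τ x ↔ _
    rw [h1]
  let Z : Set Gal(Ω/K) := {g | pc F n g ≠ 0} ∪ {1}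
  have hZ : IsClosed Z := by
    refine IsClosed.union ?_ isClosed_singleton
    rw [← isOpen_compl_iff, isOpen_iff_mem_nhds]
    intro g hg
    have h1 : IsOpen {x : Gal(Ω/K) | g⁻¹ * x ∈ E₀.fixingSubgroup} :=
      (E₀.fixingSubgroup_isOpen).preimage (continuous_const.mul continuous_id)
    refine Filter.mem_of_superset (h1.mem_nhds (by
      change g⁻¹ * g ∈ E₀.fixingSubgroup
      rw [inv_mul_cancel]
      exact Subgroup.one_mem E₀.fixingSubgroup)) ?_
    intro x hx hx'
    apply hg
    have h2 := hlc g (g⁻¹ * x) hx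
    rw [mul_inv_cancel_left] at h2
    intro h3
    exact hx' (h2.trans h3)
  obtain ⟨E, hE1, hE2, hE3, hsep⟩ := sep {c : Gal(Ω/K) | IsCC c} isClosed_CC one_notMem_CC
    (fun c hc g hg => cent_CC c hc g hg) Z hZ (by
      rintro g (hg | hg) hc
      · exact hg (pc_CC F n hn hc)
      · rw [Set.mem_singleton_iff.1 hg] at hc
        exact one_notMem_CC hc) E₀
  have hgal : IsGalois K E := ⟨⟩
  have hnf : NumberField E := NumberField.of_module_finite K E
  have hcharΩ : CharZero Ω := charZero_of_injective_algebraMap (algebraMap K Ω).injective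
  let cod : ∀ i, (F i →ₐ[K] Ω) → (F i →ₐ[K] E) := fun i τ =>
    AlgHom.codRestrict τ E.toSubalgebra fun x => hE3 (hle0 i τ x)
  let emb0 : ∀ i, F i →ₐ[K] Ω := fun i => IsAlgClosed.lift
  -- complex conjugations of `E`
  have key : ∀ (g : Gal(E/K)) (G : Gal(Ω/K)), (∀ z : E, G (z : Ω) = (g z : E)) → G ∈ Z →
      ∀ k : ℤ, ¬ IsCC (g ^ k) := by
    intro g G hG hGZ k hk
    obtain ⟨c, hc, hcE⟩ := isCC_lift E hk
    have hGk : ∀ (k : ℤ) (z : E), (G ^ k) (z : Ω) = ((g ^ k) z : E) := by
      have hpow : ∀ (k : ℕ) (z : E), (G ^ k) (z : Ω) = ((g ^ k) z : E) := by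
        intro k
        induction k with
        | zero => intro z; rfl
        | succ k ih =>
          intro z
          rw [pow_succ, pow_succ]
          change (G ^ k) (G z) = ((g ^ k) (g z) : E)
          rw [hG, ih]
      have hinv : ∀ (H : Gal(Ω/K)) (h : Gal(E/K)), (∀ z : E, H (z : Ω) = (h z : E)) →
          ∀ z : E, H⁻¹ (z : Ω) = (h⁻¹ z : E) := by
        intro H h hH z
        have h1 : H ((h⁻¹ z : E) : Ω) = z := by
          rw [hH]
          congr 1
          change (h * h⁻¹) z = z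
          rw [mul_inv_cancel]
          rfl
        have h2 : H⁻¹ (H ((h⁻¹ z : E) : Ω)) = ((h⁻¹ z : E) : Ω) := by
          change (H⁻¹ * H) ((h⁻¹ z : E) : Ω) = _
          rw [inv_mul_cancel]
          rfl
        rw [← h2, h1]
      intro k z
      obtain ⟨k, rfl | rfl⟩ := k.eq_nat_or_neg
      · rw [zpow_natCast, zpow_natCast]
        exact hpow k z
      · rw [zpow_neg, zpow_neg, zpow_natCast, zpow_natCast]
        exact hinv _ _ (hpow k) z
    have h1 : (G ^ k)⁻¹ * c ∈ E.fixingSubgroup := by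
      intro z
      change (G ^ k)⁻¹ (c (z : Ω)) = z
      rw [hcE, ← hGk k z]
      change ((G ^ k)⁻¹ * G ^ k) (z : Ω) = z
      rw [inv_mul_cancel]
      rfl
    have h2 := hsep G hGZ k _ h1
    rw [mul_inv_cancel_left] at h2
    exact h2 hc
  -- the function on the Galois group
  let fn : Gal(E/K) → ℤ := fun g => ∑ i, n i * fx (cod i (emb0 i)).fieldRange.fixingSubgroup g
  have hfn : fn ∈ SP (Set.univ : Set (Subgroup Gal(E/K))) := by
    have h1 : fn = ∑ i, n i • fx (cod i (emb0 i)).fieldRange.fixingSubgroup := by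
      funext g
      rw [Finset.sum_apply]
      rfl
    rw [h1]
    exact Submodule.sum_mem _ fun i _ => Submodule.smul_mem _ _ (fx_mem trivial)
  have hpc : ∀ (g : Gal(E/K)) (G : Gal(Ω/K)), (∀ z : E, G (z : Ω) = (g z : E)) →
      fn g = pc F n G := by
    intro g G hG
    unfold pc
    refine Finset.sum_congr rfl fun i _ => ?_
    rw [fx_card]
    congr 2
    refine Nat.card_congr
      { toFun := fun τ => ⟨E.val.comp τ.1, fun x => ?_⟩
        invFun := fun σ => ⟨cod i σ.1, fun x => ?_⟩
        left_inv := fun τ => ?_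
        right_inv := fun σ => ?_ }
    · change G ((τ.1 x : E) : Ω) = ((τ.1 x : E) : Ω)
      rw [hG, τ.2]
    · apply Subtype.ext
      rw [← hG]
      exact σ.2 x
    · apply Subtype.ext
      ext x
      rfl
    · apply Subtype.ext
      ext x
      rfl
  obtain ⟨m, hm, hmem⟩ := rel_bad (NoCC K E) noCC_le noCC_conj fn hfn (by
    intro g hg
    let G : Ω ≃ₐ[K] Ω := g.liftNormal Ω
    have hG : ∀ x : E, G (x : Ω) = ((g x : E) : Ω) := fun x => g.liftNormal_commutes Ω x
    have hGZ : (G : Gal(Ω/K)) ∈ Z := Or.inl (by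
      change pc F n G ≠ 0
      rw [← hpc g G hG]
      exact hg)
    rintro _ ⟨k, rfl⟩
    exact key g G hG hGZ k)
  obtain ⟨e, he⟩ := SP_explicit hmem
  let _ : Fintype (NoCC K E) := Fintype.ofFinite _
  refine ⟨E, inferInstance, hnf, inferInstance, hgal, fun i => cod i (emb0 i), m,
    NoCC K E, inferInstance, fun H => IntermediateField.fixedField H.1, e, hm, ?_,
    fun H => noReal_of_noCC H.2, fun g => ?_⟩
  · refine ⟨fun ρ => ?_⟩
    refine key 1 1 (fun _ => rfl) (Or.inr rfl) 0 ⟨Complex.ofRealHom.comp ρ, fun z => ?_⟩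
    rw [zpow_zero]
    exact (Complex.conj_ofReal _).symm
  · have h1 := he g
    rw [finsum_eq_sum_of_fintype] at h1
    change (m : ℤ) * fn g = _
    rw [h1]
    refine Finset.sum_congr rfl fun H _ => ?_
    rw [IntermediateField.fixingSubgroup_fixedField]

end

end Pool.Agent.R386.TC
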